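import Pool.Agent.Y703.CX.Stm
import Pool.Agent.Helper256.KM.Mertens

/-!
# CX-FEW: few sets have few large primes
-/

set_option autoImplicit false

open scoped Classical

namespace Pool.Agent.Y495.CX.Few

open Finset Filter
open Pool.Agent.Y703.CX

/-- the primes up to `N` -/
noncomputable abbrev PN (N : ℕ) : Finset ℕ := (Icc 1 N).filter Nat.Prime

/-- Euler products -/
lemma euler (P : Finset ℕ) (w : ℕ → ℝ) (hw : ∀ p ∈ P, 0 ≤ w p) :
    ∑ S ∈ P.powerset, ∏ p ∈ S, w p ≤ Real.exp (∑ p ∈ P, w p) := by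
  rw [← Finset.prod_one_add, Real.exp_sum]
  refine prod_le_prod (fun p hp => by have := hw p hp; linarith) fun p _ => ?_
  have := Real.add_one_le_exp (w p)
  linarith

lemma SS_mem {X : ℕ} {S : Finset ℕ} (h : S ∈ SS X) :
    (∀ p ∈ S, p.Prime ∧ p ≠ 3) ∧ (S.filter fun p => p % 3 = 2).card = 1 ∧ ∏ p ∈ S, p ≤ X := by
  unfold SS at h
  rw [mem_filter] at h
  exact ⟨h.2.1.1, h.2.1.2.1, h.2.2⟩

lemma prod_pos' {S : Finset ℕ} (h : ∀ p ∈ S, p.Prime) : 0 < ∏ p ∈ S, p :=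
  Finset.prod_pos fun p hp => (h p hp).pos

lemma le_of_mem_prod {S : Finset ℕ} {X p : ℕ} (h : ∀ p ∈ S, p.Prime) (hX : ∏ p ∈ S, p ≤ X)
    (hp : p ∈ S) : p ≤ X :=
  (Nat.le_of_dvd (prod_pos' h) (Finset.dvd_prod_of_mem (fun p => p) hp)).trans hX

/-- the number of sets which contain a given one -/
lemma card_sup (X : ℕ) (S₀ : Finset ℕ) (h0 : ∀ p ∈ S₀, p.Prime) :
    (((SS X).filter fun S => S₀ ⊆ S).card : ℝ) ≤ X * ∏ p ∈ S₀, (1 : ℝ) / p := by
  have hpos := prod_pos' h0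
  have key : ((SS X).filter fun S => S₀ ⊆ S).card ≤ X / ∏ p ∈ S₀, p := by
    have h1 : (Icc 1 (X / ∏ p ∈ S₀, p)).card = X / ∏ p ∈ S₀, p := by simp
    rw [← h1]
    refine card_le_card_of_injOn (fun S => ∏ p ∈ S \ S₀, p) ?_ ?_
    · intro S hS
      rw [mem_coe, mem_filter] at hS
      obtain ⟨a1, -, a3⟩ := SS_mem hS.1
      have h2 : (∏ p ∈ S \ S₀, p) * ∏ p ∈ S₀, p = ∏ p ∈ S, p :=
        prod_sdiff hS.2
      rw [mem_coe, mem_Icc]
      refine ⟨prod_pos' fun p hp => (a1 p (mem_sdiff.1 hp).1).1, ?_⟩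
      rw [Nat.le_div_iff_mul_le hpos, h2]
      exact a3
    · intro S hS T hT hST
      rw [mem_coe, mem_filter] at hS hT
      obtain ⟨a1, -, a3⟩ := SS_mem hS.1
      obtain ⟨b1, -, b3⟩ := SS_mem hT.1
      have h2 : S \ S₀ = T \ S₀ := by
        have h3 := Nat.primeFactors_prod (s := S \ S₀) fun p hp => (a1 p (mem_sdiff.1 hp).1).1
        have h4 := Nat.primeFactors_prod (s := T \ S₀) fun p hp => (b1 p (mem_sdiff.1 hp).1).1
        rw [← h3, ← h4]
        exact congrArg Nat.primeFactors hST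
      rw [← sdiff_union_of_subset hS.2, h2, sdiff_union_of_subset hT.2]
  have h2 : ((X / ∏ p ∈ S₀, p : ℕ) : ℝ) ≤ (X : ℝ) / ((∏ p ∈ S₀, p : ℕ) : ℝ) := Nat.cast_div_le
  have h3 : (X : ℝ) * ∏ p ∈ S₀, (1 : ℝ) / p = (X : ℝ) / ((∏ p ∈ S₀, p : ℕ) : ℝ) := by
    rw [prod_div_distrib, prod_const_one]
    push_cast
    ring
  rw [h3]
  exact (by exact_mod_cast key : (((SS X).filter fun S => S₀ ⊆ S).card : ℝ) ≤
    ((X / ∏ p ∈ S₀, p : ℕ) : ℝ)).trans h2

/-- the moments of the number of small primes -/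
lemma moment (X z : ℕ) (κ : ℝ) (hκ : 0 ≤ κ) :
    ∑ S ∈ SS X, κ ^ (sm z S).card ≤ X * Real.exp (κ * ∑ p ∈ PN z, (1 : ℝ) / p) := by
  have hmaps : ∀ S ∈ SS X, sm z S ∈ (PN z).powerset := by
    intro S hS
    rw [mem_powerset]
    intro p hp
    unfold sm at hp
    rw [mem_filter] at hp
    have h1 := ((SS_mem hS).1 p hp.1).1
    rw [mem_filter, mem_Icc]
    exact ⟨⟨h1.one_lt.le, hp.2⟩, h1⟩
  rw [← sum_fiberwise_of_maps_to hmaps]
  have h1 : ∀ S₀ ∈ (PN z).powerset, ∑ S ∈ (SS X).filter (fun S => sm z S = S₀),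
      κ ^ (sm z S).card ≤ X * ∏ p ∈ S₀, κ * (1 / (p : ℝ)) := by
    intro S₀ hS₀
    rw [mem_powerset] at hS₀
    have h2 : ∑ S ∈ (SS X).filter (fun S => sm z S = S₀), κ ^ (sm z S).card =
        (((SS X).filter fun S => sm z S = S₀).card : ℝ) * κ ^ S₀.card := by
      rw [← nsmul_eq_mul, ← sum_const]
      refine sum_congr rfl fun S hS => ?_
      rw [(mem_filter.1 hS).2]
    have h3 : (((SS X).filter fun S => sm z S = S₀).card : ℝ) ≤
        (((SS X).filter fun S => S₀ ⊆ S).card : ℝ) := by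
      have : ((SS X).filter fun S => sm z S = S₀).card ≤ ((SS X).filter fun S => S₀ ⊆ S).card := by
        refine card_le_card fun S hS => ?_
        rw [mem_filter] at hS ⊢
        refine ⟨hS.1, ?_⟩
        rw [← hS.2]
        exact filter_subset _ _
      exact_mod_cast this
    have h4 := card_sup X S₀ fun p hp => (mem_filter.1 (hS₀ hp)).2
    rw [h2, prod_mul_distrib, prod_const]
    have h5 : (0 : ℝ) ≤ κ ^ S₀.card := by positivity
    calc _ ≤ (X * ∏ p ∈ S₀, (1 : ℝ) / p) * κ ^ S₀.card :=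
          mul_le_mul_of_nonneg_right (h3.trans h4) h5
      _ = _ := by ring
  refine (sum_le_sum h1).trans ?_
  rw [← mul_sum]
  apply mul_le_mul_of_nonneg_left _ (Nat.cast_nonneg _)
  refine (euler (PN z) (fun p => κ * (1 / (p : ℝ))) fun p _ => by positivity).trans ?_
  rw [← mul_sum]

/-- the family -/
noncomputable def LL (X z B : ℕ) : Finset (Finset ℕ) :=
  (range (X + 1)).powerset.filter fun S => (∀ p ∈ S, p.Prime ∧ p ≠ 3) ∧ ∏ p ∈ S, p ≤ X ∧
    (S.filter fun p => p % 3 = 2).card ≤ 1 ∧ ((la z S).filter fun p => p % 3 = 1).card ≤ B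

lemma mem_LL {X z B : ℕ} {S : Finset ℕ} : S ∈ LL X z B ↔ S ⊆ range (X + 1) ∧
    (∀ p ∈ S, p.Prime ∧ p ≠ 3) ∧ ∏ p ∈ S, p ≤ X ∧ (S.filter fun p => p % 3 = 2).card ≤ 1 ∧
    ((la z S).filter fun p => p % 3 = 1).card ≤ B := by
  unfold LL
  rw [mem_filter, mem_powerset]

lemma LL_sub {X z B : ℕ} {S T : Finset ℕ} (hS : S ∈ LL X z B) (h : T ⊆ S) : T ∈ LL X z B := by
  rw [mem_LL] at hS ⊢
  obtain ⟨a0, a1, a2, a3, a4⟩ := hS
  refine ⟨h.trans a0, fun p hp => a1 p (h hp), ?_, ?_, ?_⟩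
  · refine le_trans ?_ a2
    refine prod_le_prod_of_subset_of_one_le' h fun p hp _ => (a1 p hp).1.one_lt.le
  · exact (card_le_card (filter_subset_filter _ h)).trans a3
  · refine (card_le_card (filter_subset_filter _ ?_)).trans a4
    unfold la
    exact filter_subset_filter _ h

/-- the weights -/
noncomputable def wg (z : ℕ) (Λ : ℝ) (p : ℕ) : ℝ :=
  (if ¬ p ≤ z ∧ p % 3 ≠ 2 then 1 / 8 else 1) * (if ¬ p ≤ z ∧ p % 3 = 2 then 1 / Λ else 1)

lemma wg_nonneg (z : ℕ) {Λ : ℝ} (hΛ : 1 ≤ Λ) (p : ℕ) : 0 ≤ wg z Λ p := by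
  unfold wg
  have : 0 ≤ 1 / Λ := by positivity
  split_ifs <;> positivity

lemma wg_le (z : ℕ) {Λ : ℝ} (hΛ : 1 ≤ Λ) (p : ℕ) :
    wg z Λ p ≤ (if p ≤ z then 1 else 0) + 1 / 8 + 1 / Λ := by
  unfold wg
  have h0 : 0 ≤ 1 / Λ := by positivity
  by_cases h1 : p ≤ z
  · simp only [h1, not_true, false_and, if_false, if_true]
    linarith
  · by_cases h2 : p % 3 = 2
    · simp only [h1, h2, not_false_iff, true_and, ne_eq, not_true, if_false, if_true]
      linarith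
    · simp only [h1, h2, not_false_iff, true_and, ne_eq, if_false, if_true]
      linarith

lemma mod_three {p : ℕ} (hp : p.Prime) (h3 : p ≠ 3) (h2 : p % 3 ≠ 2) : p % 3 = 1 := by
  have h0 : p % 3 ≠ 0 := by
    intro h
    exact h3 ((Nat.prime_dvd_prime_iff_eq Nat.prime_three hp).1 (Nat.dvd_of_mod_eq_zero h)).symm
  omega

lemma one_le_wg {X z B : ℕ} {Λ : ℝ} (hΛ : 1 ≤ Λ) {S : Finset ℕ} (hS : S ∈ LL X z B) :
    1 ≤ 8 ^ B * Λ * ∏ p ∈ S, wg z Λ p := by
  rw [mem_LL] at hS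
  obtain ⟨a0, a1, a2, a3, a4⟩ := hS
  unfold wg
  rw [prod_mul_distrib, ← prod_filter, ← prod_filter, prod_const, prod_const]
  have h1 : (S.filter fun p => ¬ p ≤ z ∧ p % 3 ≠ 2).card ≤ B := by
    refine (card_le_card ?_).trans a4
    intro p hp
    rw [mem_filter] at hp
    unfold la
    rw [mem_filter, mem_filter]
    exact ⟨⟨hp.1, hp.2.1⟩, mod_three (a1 p hp.1).1 (a1 p hp.1).2 hp.2.2⟩
  have h2 : (S.filter fun p => ¬ p ≤ z ∧ p % 3 = 2).card ≤ 1 := by
    refine (card_le_card ?_).trans a3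
    intro p hp
    rw [mem_filter] at hp ⊢
    exact ⟨hp.1, hp.2.2⟩
  have h3 : (1 / 8 : ℝ) ^ B ≤ (1 / 8 : ℝ) ^ (S.filter fun p => ¬ p ≤ z ∧ p % 3 ≠ 2).card :=
    pow_le_pow_of_le_one (by norm_num) (by norm_num) h1
  have h4 : (1 / Λ) ^ 1 ≤ (1 / Λ) ^ (S.filter fun p => ¬ p ≤ z ∧ p % 3 = 2).card :=
    pow_le_pow_of_le_one (by positivity) (by rw [div_le_one (by linarith)]; exact hΛ) h2
  have Λ0 : 0 < Λ := by linarith
  calc (1 : ℝ) = 8 ^ B * Λ * ((1 / 8 : ℝ) ^ B * (1 / Λ) ^ 1) := by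
        rw [pow_one, div_pow, one_pow]
        field_simp
    _ ≤ _ := by
        apply mul_le_mul_of_nonneg_left _ (by positivity)
        exact mul_le_mul h3 h4 (by positivity) (by positivity)

/-- the logarithmic density of the family -/
lemma LL_sum (X z B : ℕ) {Λ : ℝ} (hΛ : 1 ≤ Λ) :
    ∑ S ∈ LL X z B, (1 : ℝ) / ((∏ p ∈ S, p : ℕ) : ℝ) ≤ 8 ^ B * Λ *
      Real.exp (∑ p ∈ PN z, (1 : ℝ) / p + (1 / 8 + 1 / Λ) * ∑ p ∈ PN X, (1 : ℝ) / p) := by
  have Λ0 : 0 < Λ := by linarith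
  have h1 : ∀ S ∈ LL X z B, (1 : ℝ) / ((∏ p ∈ S, p : ℕ) : ℝ) ≤
      8 ^ B * Λ * ∏ p ∈ S, (wg z Λ p * (1 / p)) := by
    intro S hS
    have h2 := one_le_wg hΛ hS
    have h3 : (0 : ℝ) ≤ ∏ p ∈ S, (1 : ℝ) / p := prod_nonneg fun p _ => by positivity
    have h4 : (1 : ℝ) / ((∏ p ∈ S, p : ℕ) : ℝ) = ∏ p ∈ S, (1 : ℝ) / p := by
      rw [prod_div_distrib, prod_const_one]
      push_cast
      rfl
    rw [h4, prod_mul_distrib]
    calc ∏ p ∈ S, (1 : ℝ) / p = 1 * ∏ p ∈ S, (1 : ℝ) / p := (one_mul _).symm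
      _ ≤ (8 ^ B * Λ * ∏ p ∈ S, wg z Λ p) * ∏ p ∈ S, (1 : ℝ) / p :=
          mul_le_mul_of_nonneg_right h2 h3
      _ = _ := by ring
  refine (sum_le_sum h1).trans ?_
  rw [← mul_sum]
  apply mul_le_mul_of_nonneg_left _ (by positivity)
  have hnn : ∀ p : ℕ, 0 ≤ wg z Λ p * (1 / (p : ℝ)) := fun p =>
    mul_nonneg (wg_nonneg z hΛ p) (by positivity)
  have h5 : ∑ S ∈ LL X z B, ∏ p ∈ S, (wg z Λ p * (1 / (p : ℝ))) ≤
      ∑ S ∈ (PN X).powerset, ∏ p ∈ S, (wg z Λ p * (1 / (p : ℝ))) := by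
    refine sum_le_sum_of_subset_of_nonneg ?_ fun S _ _ => prod_nonneg fun p _ => hnn p
    intro S hS
    rw [mem_LL] at hS
    rw [mem_powerset]
    intro p hp
    have h6 := (hS.2.1 p hp).1
    rw [mem_filter, mem_Icc]
    exact ⟨⟨h6.one_lt.le, le_of_mem_prod (fun p hp => (hS.2.1 p hp).1) hS.2.2.1 hp⟩, h6⟩
  refine h5.trans ((euler (PN X) _ fun p _ => hnn p).trans ?_)
  apply Real.exp_le_exp.2
  have h6 : ∀ p ∈ PN X, wg z Λ p * (1 / (p : ℝ)) ≤
      (if p ≤ z then (1 : ℝ) / p else 0) + (1 / 8 + 1 / Λ) * (1 / p) := by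
    intro p _
    have h7 := mul_le_mul_of_nonneg_right (wg_le z hΛ p) (show (0 : ℝ) ≤ 1 / p by positivity)
    refine h7.trans (le_of_eq ?_)
    split_ifs <;> ring
  refine (sum_le_sum h6).trans ?_
  rw [sum_add_distrib, ← mul_sum, ← sum_filter]
  gcongr
  intro p hp
  rw [mem_filter, mem_filter, mem_Icc] at hp
  rw [mem_filter, mem_Icc]
  exact ⟨⟨hp.1.1.1, hp.2⟩, hp.1.2⟩

/-! ### Asymptotics -/

lemma mert : ∃ C : ℝ, 0 ≤ C ∧ ∀ N : ℕ, 3 ≤ N →
    ∑ p ∈ PN N, (1 : ℝ) / p ≤ Real.log (Real.log N) + C := by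
  obtain ⟨C, hC⟩ := Pool.Agent.Helper256.KM.mertens_inv
  refine ⟨|C|, abs_nonneg _, fun N hN => ?_⟩
  have h1 := (abs_le.1 (hC N hN)).2
  have h2 := le_abs_self C
  linarith

lemma eL_tendsto : Tendsto eL atTop atTop :=
  Real.tendsto_log_atTop.comp (Real.tendsto_log_atTop.comp tendsto_natCast_atTop_atTop)

lemma log_small (K ε : ℝ) (hε : 0 < ε) : ∀ᶠ l : ℝ in atTop, K * Real.log l ≤ ε * l := by
  have h1 : Real.log =o[atTop] (fun l : ℝ => l) := Real.isLittleO_log_id_atTop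
  have h2 := h1.bound (show 0 < ε / (|K| + 1) by positivity)
  filter_upwards [h2, eventually_ge_atTop 1] with l hl hl1
  rw [Real.norm_of_nonneg (Real.log_nonneg hl1), Real.norm_of_nonneg (by linarith)] at hl
  have h3 : K * Real.log l ≤ (|K| + 1) * Real.log l := by
    apply mul_le_mul_of_nonneg_right _ (Real.log_nonneg hl1)
    have := le_abs_self K
    linarith
  refine h3.trans ?_
  calc (|K| + 1) * Real.log l ≤ (|K| + 1) * (ε / (|K| + 1) * l) :=
        mul_le_mul_of_nonneg_left hl (by positivity)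
    _ = ε * l := by field_simp

lemma zz_ge {X : ℕ} (h : 2 ≤ eL X) : 3 ≤ zz X := by
  unfold zz
  apply Nat.le_floor
  have h1 := Real.add_one_le_exp ((eL X) ^ 3)
  have h2 : (2 : ℝ) ^ 3 ≤ (eL X) ^ 3 := pow_le_pow_left₀ (by norm_num) h 3
  push_cast
  linarith

lemma loglog_zz {X : ℕ} (h : 2 ≤ eL X) : Real.log (Real.log (zz X)) ≤ 3 * Real.log (eL X) := by
  have h3 : (3 : ℝ) ≤ zz X := by exact_mod_cast zz_ge h
  have h1 : (zz X : ℝ) ≤ Real.exp ((eL X) ^ 3) := Nat.floor_le (Real.exp_pos _).le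
  have h2 : Real.log (zz X) ≤ (eL X) ^ 3 := by
    rw [← Real.log_exp ((eL X) ^ 3)]
    exact Real.log_le_log (by linarith) h1
  have h4 : 0 < Real.log (zz X) := Real.log_pos (by linarith)
  have h5 := Real.log_le_log h4 h2
  rw [Real.log_pow] at h5
  exact_mod_cast h5

lemma rpow_eq {X : ℕ} (h : 2 ≤ eL X) (s : ℝ) : (Real.log X) ^ s = Real.exp (s * eL X) := by
  have h1 : 0 < Real.log X := by
    by_contra hc
    have h2 : 0 ≤ Real.log X := Real.log_natCast_nonneg _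
    have h3 : Real.log X = 0 := le_antisymm (not_lt.1 hc) h2
    unfold eL at h
    rw [h3, Real.log_zero] at h
    norm_num at h
  rw [Real.rpow_def_of_pos h1]
  unfold eL
  rw [mul_comm]

/-- sets with many small primes -/
lemma part1 : ∃ C : ℝ, 0 ≤ C ∧ ∀ᶠ X : ℕ in atTop,
    (((SS X).filter fun S => eL X / 20 < ((sm (zz X) S).card : ℝ)).card : ℝ) ≤
      C * X * Real.exp (-(3 / 5) * eL X) := by
  obtain ⟨C, hC0, hC⟩ := mert
  set κ : ℝ := Real.exp 20 with hκ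
  have κ0 : 0 < κ := Real.exp_pos _
  refine ⟨Real.exp (κ * C), (Real.exp_pos _).le, ?_⟩
  filter_upwards [eL_tendsto.eventually (log_small (3 * κ) (2 / 5) (by norm_num)),
    eL_tendsto.eventually (eventually_ge_atTop 2)] with X h1 h2
  have h3 := moment X (zz X) κ κ0.le
  have h4 := hC (zz X) (zz_ge h2)
  have h5 := loglog_zz h2
  have h6 : (((SS X).filter fun S => eL X / 20 < ((sm (zz X) S).card : ℝ)).card : ℝ) *
      Real.exp (eL X) ≤ ∑ S ∈ SS X, κ ^ (sm (zz X) S).card := by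
    rw [← nsmul_eq_mul, ← sum_const]
    refine le_trans ?_ (sum_le_sum_of_subset_of_nonneg
      (filter_subset (fun S => eL X / 20 < ((sm (zz X) S).card : ℝ)) (SS X))
      fun S _ _ => by positivity)
    refine sum_le_sum fun S hS => ?_
    rw [mem_filter] at hS
    rw [hκ, ← Real.exp_nat_mul]
    apply Real.exp_le_exp.2
    linarith [hS.2]
  have h7 := h6.trans h3
  have h8 : κ * ∑ p ∈ PN (zz X), (1 : ℝ) / p ≤ κ * C + 2 / 5 * eL X := by
    have : κ * ∑ p ∈ PN (zz X), (1 : ℝ) / p ≤ κ * (3 * Real.log (eL X) + C) :=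
      mul_le_mul_of_nonneg_left (by linarith) κ0.le
    nlinarith
  have h9 : (X : ℝ) * Real.exp (κ * ∑ p ∈ PN (zz X), (1 : ℝ) / p) ≤
      X * (Real.exp (κ * C) * Real.exp (2 / 5 * eL X)) := by
    rw [← Real.exp_add]
    exact mul_le_mul_of_nonneg_left (Real.exp_le_exp.2 h8) (Nat.cast_nonneg _)
  have h10 := h7.trans h9
  have h11 : (Real.exp (κ * C) * X * Real.exp (-(3 / 5) * eL X)) * Real.exp (eL X) =
      X * (Real.exp (κ * C) * Real.exp (2 / 5 * eL X)) := by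
    have : Real.exp (2 / 5 * eL X) = Real.exp (-(3 / 5) * eL X) * Real.exp (eL X) := by
      rw [← Real.exp_add]
      congr 1
      ring
    rw [this]
    ring
  rw [← h11] at h10
  exact le_of_mul_le_mul_right h10 (Real.exp_pos _)

/-- sets with few large primes -/
lemma part2 (hs : S_SIE) : ∃ C : ℝ, 0 ≤ C ∧ ∀ᶠ X : ℕ in atTop,
    ((LL X (zz X) ⌊eL X / 10⌋₊).card : ℝ) ≤ C * X * Real.exp (-(3 / 5) * eL X) := by
  obtain ⟨C, hC0, hC⟩ := mert
  obtain ⟨C', hC'1, hC'⟩ := hs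
  refine ⟨C' * Real.exp (3 * C + 1), by positivity, ?_⟩
  filter_upwards [eL_tendsto.eventually (log_small 4 (1 / 20) (by norm_num)),
    eL_tendsto.eventually (eventually_ge_atTop 2), eventually_ge_atTop 3] with X h1 h2 h3
  set l := eL X with hl
  have h4 := hC (zz X) (zz_ge h2)
  have h5 := loglog_zz h2
  have h6 := hC X h3
  rw [← hl] at h5
  have h7 := hC' X (LL X (zz X) ⌊l / 10⌋₊) (by omega)
    (fun S hS => ⟨fun p hp => ((mem_LL.1 hS).2.1 p hp).1, (mem_LL.1 hS).2.2.1⟩)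
    (fun S hS T hT => LL_sub hS hT)
  have h8 := LL_sum X (zz X) ⌊l / 10⌋₊ (Λ := l) (by linarith)
  have hlX : Real.log X = Real.exp l := by
    have := rpow_eq (X := X) h2 1
    rwa [Real.rpow_one, one_mul] at this
  rw [hlX] at h7
  have h9 : (8 : ℝ) ^ ⌊l / 10⌋₊ ≤ Real.exp (21 / 100 * l) := by
    have e1 : (8 : ℝ) = Real.exp (Real.log 8) := (Real.exp_log (by norm_num)).symm
    rw [e1, ← Real.exp_nat_mul]
    apply Real.exp_le_exp.2
    have e2 : ((⌊l / 10⌋₊ : ℕ) : ℝ) ≤ l / 10 := Nat.floor_le (by positivity)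
    have e3 : Real.log 8 ≤ 21 / 10 := by
      have : (8 : ℝ) = 2 ^ 3 := by norm_num
      rw [this, Real.log_pow]
      have := Real.log_two_lt_d9
      push_cast
      linarith
    have e4 : 0 ≤ Real.log 8 := Real.log_nonneg (by norm_num)
    calc ((⌊l / 10⌋₊ : ℕ) : ℝ) * Real.log 8 ≤ (l / 10) * (21 / 10) :=
          mul_le_mul e2 e3 e4 (by positivity)
      _ = _ := by ring
  have h10 : l = Real.exp (Real.log l) := (Real.exp_log (by linarith)).symm
  have h11 : ∑ p ∈ PN (zz X), (1 : ℝ) / p + (1 / 8 + 1 / l) * ∑ p ∈ PN X, (1 : ℝ) / p ≤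
      3 * Real.log l + C + (1 / 8 * (l + C) + (1 + C)) := by
    have e1 : (1 / 8 + 1 / l) * ∑ p ∈ PN X, (1 : ℝ) / p ≤ (1 / 8 + 1 / l) * (l + C) := by
      apply mul_le_mul_of_nonneg_left h6
      positivity
    have e2 : 1 / l * (l + C) ≤ 1 + C := by
      rw [mul_add, one_div_mul_cancel (by linarith)]
      have : 1 / l ≤ 1 := by rw [div_le_one (by linarith)]; linarith
      have := mul_le_mul_of_nonneg_right this hC0
      linarith
    nlinarith
  have h12 : 8 ^ ⌊l / 10⌋₊ * l * Real.exp (∑ p ∈ PN (zz X), (1 : ℝ) / p +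
      (1 / 8 + 1 / l) * ∑ p ∈ PN X, (1 : ℝ) / p) ≤
      Real.exp (3 * C + 1) * Real.exp (2 / 5 * l) := by
    calc _ ≤ Real.exp (21 / 100 * l) * l *
          Real.exp (3 * Real.log l + C + (1 / 8 * (l + C) + (1 + C))) := by
          gcongr
      _ = Real.exp (21 / 100 * l) * Real.exp (Real.log l) *
          Real.exp (3 * Real.log l + C + (1 / 8 * (l + C) + (1 + C))) := by rw [← h10]
      _ = Real.exp (21 / 100 * l + Real.log l +
          (3 * Real.log l + C + (1 / 8 * (l + C) + (1 + C)))) := by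
          rw [← Real.exp_add, ← Real.exp_add]
      _ ≤ Real.exp (3 * C + 1 + 2 / 5 * l) := by
          apply Real.exp_le_exp.2
          linarith
      _ = _ := by rw [Real.exp_add]
  have h13 : ((LL X (zz X) ⌊l / 10⌋₊).card : ℝ) * Real.exp l ≤
      C' * X * (Real.exp (3 * C + 1) * Real.exp (2 / 5 * l)) := by
    refine h7.trans ?_
    exact mul_le_mul_of_nonneg_left (h8.trans h12) (by positivity)
  have h14 : (C' * Real.exp (3 * C + 1) * X * Real.exp (-(3 / 5) * l)) * Real.exp l =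
      C' * X * (Real.exp (3 * C + 1) * Real.exp (2 / 5 * l)) := by
    have : Real.exp (2 / 5 * l) = Real.exp (-(3 / 5) * l) * Real.exp l := by
      rw [← Real.exp_add]
      congr 1
      ring
    rw [this]
    ring
  rw [← h14] at h13
  exact le_of_mul_le_mul_right h13 (Real.exp_pos _)

theorem t_FEW : S_FEW := by
  intro hs V
  obtain ⟨C₁, hC₁, h1⟩ := part1
  obtain ⟨C₂, hC₂, h2⟩ := part2 hs
  have h3 := (h1.and h2).and (eL_tendsto.eventually (eventually_ge_atTop (max 2 (20 * (V : ℝ)))))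
  rw [eventually_atTop] at h3
  obtain ⟨X₀, hX₀⟩ := h3
  refine ⟨C₁ + C₂, X₀, fun X hX => ?_⟩
  obtain ⟨⟨h4, h5⟩, h6⟩ := hX₀ X hX
  have h7 : 2 ≤ eL X := (le_max_left _ _).trans h6
  have h8 : 20 * (V : ℝ) ≤ eL X := (le_max_right _ _).trans h6
  rw [rpow_eq h7]
  have h9 : ((SS X).filter fun S => ((la (zz X) S).filter fun p => p % 3 = 1).card ≤
      (sm (zz X) S).card + V) ⊆
      ((SS X).filter fun S => eL X / 20 < ((sm (zz X) S).card : ℝ)) ∪
        LL X (zz X) ⌊eL X / 10⌋₊ := by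
    intro S hS
    rw [mem_filter] at hS
    rw [mem_union, mem_filter]
    by_cases hc : eL X / 20 < ((sm (zz X) S).card : ℝ)
    · exact Or.inl ⟨hS.1, hc⟩
    · right
      rw [not_lt] at hc
      obtain ⟨a1, a2, a3⟩ := SS_mem hS.1
      rw [mem_LL]
      refine ⟨?_, a1, a3, a2.le, ?_⟩
      · intro p hp
        rw [mem_range]
        have := le_of_mem_prod (fun p hp => (a1 p hp).1) a3 hp
        omega
      · apply Nat.le_floor
        have h10 : ((((la (zz X) S).filter fun p => p % 3 = 1).card : ℕ) : ℝ) ≤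
            ((sm (zz X) S).card : ℝ) + V := by exact_mod_cast hS.2
        linarith
  have h10 : (((SS X).filter fun S => ((la (zz X) S).filter fun p => p % 3 = 1).card ≤
      (sm (zz X) S).card + V).card : ℝ) ≤
      (((SS X).filter fun S => eL X / 20 < ((sm (zz X) S).card : ℝ)).card : ℝ) +
        ((LL X (zz X) ⌊eL X / 10⌋₊).card : ℝ) := by
    exact_mod_cast (card_le_card h9).trans (card_union_le _ _)
  refine h10.trans ((add_le_add h4 h5).trans (le_of_eq ?_))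
  ring

end Pool.Agent.Y495.CX.Few
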